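import Pool.Agent.H57.ApM

set_option autoImplicit false

namespace Pool.Agent.Results.MP_af815a_al.UnderDiamond

open Cardinal Pool.Agent.H33.DiaDefs

/-- Under diamond some group of size `ℵ₁` has no uncountable admissible subset. -/
theorem result (h : Diamond) : ∃ (G : Type) (_ : Group G), #G = ℵ₁ ∧
    ∀ H : Set G, ¬ H.Countable → ∃ x ∈ H, ∃ y ∈ H, ∃ z ∈ H, x⁻¹ * y = y⁻¹ * z ∧ x ≠ z :=
  Pool.Agent.H57.Ap.noadm h

end Pool.Agent.Results.MP_af815a_al.UnderDiamond
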